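import Pool.Agent.H74.TQ.Stmts

set_option autoImplicit false

namespace Pool.TQ

open TMLib Polynomial

/-- one step of the work list algorithm -/
private def codeStep (s : List D × List Bool) : List D × List Bool :=
  List.casesOn (motive := fun _ => List D × List Bool) s.1 s fun x t =>
    if x = D.nil then (t, false :: s.2) else (x.hd :: x.tl :: t, true :: s.2)

/-- the value of a state -/
private def codeVal (s : List D × List Bool) : List Bool := s.2.reverse ++ s.1.flatMap D.code

private lemma codeVal_step (s : List D × List Bool) : codeVal (codeStep s) = codeVal s := by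
  obtain ⟨w, b⟩ := s
  cases w with
  | nil => rfl
  | cons x t => cases x <;> simp [codeStep, codeVal, D.code]

/-- total size of the work list -/
private def codeMeas (w : List D) : ℕ := (w.map D.size).sum

private lemma codeMeas_step (s : List D × List Bool) :
    codeMeas (codeStep s).1 ≤ codeMeas s.1 - 1 := by
  obtain ⟨w, b⟩ := s
  cases w with
  | nil => simp [codeMeas, codeStep]
  | cons x t => cases x <;> simp [codeStep, codeMeas] <;> omega

private lemma code_sz1 (s : List D × List Bool) : sz (codeStep s).1 ≤ sz s.1 := by
  obtain ⟨w, b⟩ := s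
  cases w with
  | nil => simp [codeStep]
  | cons x t => cases x <;> simp [codeStep] <;> omega

private lemma code_sz2 (s : List D × List Bool) : sz (codeStep s).2 ≤ 4 + sz s.2 := by
  obtain ⟨w, b⟩ := s
  cases w with
  | nil =>
    show sz b ≤ 4 + sz b
    omega
  | cons x t =>
    cases x with
    | nil =>
      show sz (false :: b) ≤ 4 + sz b
      have := sz_bool_le false
      simp only [sz_cons]
      omega
    | cons x y =>
      show sz (true :: b) ≤ 4 + sz b
      have := sz_bool_le true
      simp only [sz_cons]
      omega

private lemma codeStep_iterate (n : ℕ) (s : List D × List Bool) :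
    codeVal (codeStep^[n] s) = codeVal s ∧ codeMeas (codeStep^[n] s).1 ≤ codeMeas s.1 - n ∧
      sz (codeStep^[n] s).1 ≤ sz s.1 ∧ sz (codeStep^[n] s).2 ≤ 4 * n + sz s.2 := by
  induction n with
  | zero => simp
  | succ n ih =>
    rw [Function.iterate_succ_apply']
    refine ⟨(codeVal_step _).trans ih.1, ?_, (code_sz1 _).trans ih.2.2.1,
      (code_sz2 _).trans ?_⟩
    · have := codeMeas_step (codeStep^[n] s)
      omega
    · have := ih.2.2.2
      omega

private lemma ptime_codeStep : PTime codeStep := by
  refine PTime.listCases (g := fun (s : List D × List Bool) x t =>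
    if x = D.nil then (t, false :: s.2) else (x.hd :: x.tl :: t, true :: s.2))
    (PTime.fst PTime.id) PTime.id ?_
  refine PTime.treeCases (PTime.fst (PTime.snd PTime.id)) ?_ ?_
  · exact PTime.pair (PTime.snd (PTime.snd PTime.id))
      (PTime.cons (PTime.const false) (PTime.snd (PTime.fst PTime.id)))
  · exact PTime.pair (PTime.cons (PTime.hd.comp (PTime.fst (PTime.snd PTime.id)))
      (PTime.cons (PTime.tl.comp (PTime.fst (PTime.snd PTime.id)))
        (PTime.snd (PTime.snd PTime.id))))
      (PTime.cons (PTime.const true) (PTime.snd (PTime.fst PTime.id)))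

theorem code : S_CODE := by
  have hs : PTime (fun x : D => ([x], ([] : List Bool))) :=
    PTime.pair (PTime.cons PTime.id (PTime.const [])) (PTime.const [])
  have hb : PB (fun x : D => 1 + (2 + sz x) + (4 * sz x + 1)) :=
    ((PB.const 1).add ((PB.const 2).add PB.sz_self)).add
      (((PB.const 4).mul PB.sz_self).add (PB.const 1))
  have h1 := PTime.iter (n := fun x : D => sz x) ptime_codeStep hs (PTime.sz' PTime.id) hb
    (fun x i hi => by
      obtain ⟨-, -, h2, h3⟩ := codeStep_iterate i ([x], ([] : List Bool))
      rw [sz_pair]
      have h4 : sz ([x] : List D) = 2 + sz x := by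
        simp only [sz_cons, sz_nil]
        omega
      have h5 : sz ([] : List Bool) = 1 := rfl
      dsimp only at h2 h3
      rw [h4] at h2
      rw [h5] at h3
      omega)
  refine (PTime.reverse (PTime.snd h1)).congr fun x => ?_
  obtain ⟨h2, h3, -, -⟩ := codeStep_iterate (sz x) ([x], ([] : List Bool))
  have h4 : codeMeas [x] = sz x := by simp [codeMeas]
  rw [h4, Nat.sub_self] at h3
  have h5 : (codeStep^[sz x] ([x], ([] : List Bool))).1 = [] := by
    cases h : (codeStep^[sz x] ([x], ([] : List Bool))).1 with
    | nil => rfl
    | cons p t =>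
      rw [h] at h3
      have := p.size_pos
      simp [codeMeas] at h3
      omega
  simp only [codeVal, h5] at h2
  simpa using h2.symm

end Pool.TQ
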