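import Pool.Agent.H74.TQ.Stmts

set_option autoImplicit false

namespace Pool.TQ

open TMLib Polynomial

/-- an unsatisfiable formula -/
private def ctxU : Form := [((0, true), (0, true), (0, true)), ((0, false), (0, false), (0, false))]

private lemma not_sat_ctxU : ¬ Sat ctxU := by
  rintro ⟨v, hv⟩
  have h1 := hv ((0, true), (0, true), (0, true)) (by simp [ctxU])
  have h2 := hv ((0, false), (0, false), (0, false)) (by simp [ctxU])
  unfold Cl.holds at h1 h2
  simp at h1 h2
  simp_all

private lemma sat_ctx_nil : Sat ([] : Form) := ⟨fun _ => false, by simp⟩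

theorem ctx : S_CTX := by
  classical
  intro K h
  obtain ⟨q, t, hq, ht, hs⟩ := h
  have ht1 : PTime (fun p : Form × Form => t (p, true)) :=
    ht.comp (PTime.pair PTime.id (PTime.const true))
  have ht2 : PTime (fun p : Form × Form => t (p, false)) :=
    ht.comp (PTime.pair PTime.id (PTime.const false))
  let b : Form × Form → Bool := fun p => (!t (p, true)) && t (p, false)
  let G : Form × Form → Form := fun p => bif t (p, true) then (bif t (p, false) then [] else q p)
    else (bif t (p, false) then q p else ctxU)
  have hb : PTime b := PTime.and (PTime.not ht1) ht2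
  have hG : PTime G := PTime.cond ht1 (PTime.cond ht2 (PTime.const []) hq)
    (PTime.cond ht2 hq (PTime.const ctxU))
  have hbb : PTime (fun p : Form × Form × Form => b (p.1, p.2.1)) :=
    hb.comp (f := fun p : Form × Form × Form => (p.1, p.2.1)) (by fun_prop)
  have hGG : PTime (fun p : Form × Form × Form => G (p.1, p.2.1)) :=
    hG.comp (f := fun p : Form × Form × Form => (p.1, p.2.1)) (by fun_prop)
  obtain ⟨PF, hPF, hPF'⟩ := K.toSat (R := fun p : Form × Form × Form =>
    Sat p.1 ∨ (b (p.1, p.2.1) = true ∧ Sat (G (p.1, p.2.1)) ∧ Sat p.2.2))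
    ((npp_sat' (f := fun p : Form × Form × Form => p.1) (by fun_prop)).or
      ((NPp.of_ptime (hbb.congr fun a => by simp)).and
        ((npp_sat' hGG).and (npp_sat' (f := fun p : Form × Form × Form => p.2.2) (by fun_prop)))))
  obtain ⟨QF, hQF, hQF'⟩ := K.toSat (R := fun p : Form × Form × Form => Sat p.1 ∧ Sat p.2.2)
    ((npp_sat' (f := fun p : Form × Form × Form => p.1) (by fun_prop)).and
      (npp_sat' (f := fun p : Form × Form × Form => p.2.2) (by fun_prop)))
  have key : ∀ p : Form × Form, (Sat p.1 ∧ ¬ Sat p.2) ↔ t (p, satb (q p)) = true := hs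
  refine ⟨⟨b, G, PF, QF, hb, hG, hPF, hQF, ?_, ?_, ?_, ?_⟩⟩
  · intro F₁ F₂ hbf
    rw [key (F₁, F₂)]
    have hbf' : ((!t ((F₁, F₂), true)) && t ((F₁, F₂), false)) = false := hbf
    show _ ↔ Sat (bif t ((F₁, F₂), true) then (bif t ((F₁, F₂), false) then [] else q (F₁, F₂))
      else (bif t ((F₁, F₂), false) then q (F₁, F₂) else ctxU))
    cases h1 : t ((F₁, F₂), true) with
    | true =>
      cases h2 : t ((F₁, F₂), false) with
      | true =>
        simp only [cond_true]
        refine ⟨fun _ => sat_ctx_nil, fun _ => ?_⟩
        cases satb (q (F₁, F₂)) with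
        | true => exact h1
        | false => exact h2
      | false =>
        simp only [cond_true, cond_false]
        rw [← satb_iff]
        cases h3 : satb (q (F₁, F₂)) with
        | true => simp [h1]
        | false => simp [h2]
    | false =>
      cases h2 : t ((F₁, F₂), false) with
      | true =>
        rw [h1, h2] at hbf'
        simp at hbf'
      | false =>
        simp only [cond_false]
        refine ⟨fun h => ?_, fun h => absurd h not_sat_ctxU⟩
        cases h3 : satb (q (F₁, F₂)) with
        | true =>
          rw [h3, h1] at h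
          cases h
        | false =>
          rw [h3, h2] at h
          cases h
  · intro F₁ F₂ hbt
    rw [key (F₁, F₂)]
    have hbt' : ((!t ((F₁, F₂), true)) && t ((F₁, F₂), false)) = true := hbt
    simp only [Bool.and_eq_true, Bool.not_eq_true'] at hbt'
    obtain ⟨h1, h2⟩ := hbt'
    show _ ↔ ¬ Sat (bif t ((F₁, F₂), true) then (bif t ((F₁, F₂), false) then [] else q (F₁, F₂))
      else (bif t ((F₁, F₂), false) then q (F₁, F₂) else ctxU))
    rw [h1, h2]
    simp only [cond_false, cond_true]
    rw [← satb_false_iff]
    cases h3 : satb (q (F₁, F₂)) with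
    | true => simp [h1]
    | false => simp [h2]
  · intro ψ F F'
    exact (hPF' (ψ, F, F')).symm
  · intro ψ F F'
    exact (hQF' (ψ, F, F')).symm

end Pool.TQ
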