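import Pool.Agent.H74.TQ.Stmts

set_option autoImplicit false

namespace Pool.TQ

open TMLib Polynomial

open Classical in
/-- one bit of the lexicographically first solution -/
private noncomputable def lexfStep {α : Type} (R : α → List Bool → Prop)
    (s : (α × ℕ) × List Bool) : (α × ℕ) × List Bool :=
  if ∃ w : List Bool, w.length = s.1.2 - 1 ∧ R s.1.1 (s.2 ++ false :: w) then
    ((s.1.1, s.1.2 - 1), s.2 ++ [false]) else ((s.1.1, s.1.2 - 1), s.2 ++ [true])

private lemma lexf_iter {α : Type} (R : α → List Bool → Prop) (x : α) (N : ℕ) :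
    ∀ p : List Bool, (lexfStep R)^[N] ((x, N), p) = ((x, 0), lexminA (R x) N p) := by
  induction N with
  | zero => intro p; rfl
  | succ N ih =>
    intro p
    rw [Function.iterate_succ_apply, lexminA]
    by_cases h : ∃ w : List Bool, w.length = N ∧ R x (p ++ false :: w)
    · have h1 : lexfStep R ((x, N + 1), p) = ((x, N), p ++ [false]) := if_pos h
      rw [h1, if_pos h, ih]
    · have h1 : lexfStep R ((x, N + 1), p) = ((x, N), p ++ [true]) := if_neg h
      rw [h1, if_neg h, ih]

private lemma lexf_len {α : Type} (R : α → List Bool → Prop) (x : α) (N : ℕ) (p : List Bool)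
    (i : ℕ) : ((lexfStep R)^[i] ((x, N), p)).1 = (x, N - i) ∧
      ((lexfStep R)^[i] ((x, N), p)).2.length = p.length + i := by
  induction i with
  | zero => exact ⟨rfl, rfl⟩
  | succ i ih =>
    rw [Function.iterate_succ_apply']
    generalize (lexfStep R)^[i] ((x, N), p) = s at ih ⊢
    obtain ⟨h1, h2⟩ := ih
    unfold lexfStep
    split_ifs with h
    · refine ⟨?_, ?_⟩
      · simp only [h1]
        rfl
      · simp only [List.length_append, h2, List.length_singleton]
        omega
    · refine ⟨?_, ?_⟩
      · simp only [h1]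
        rfl
      · simp only [List.length_append, h2, List.length_singleton]
        omega

private lemma lexf_sz (w : List Bool) (n : ℕ) (h : w.length ≤ n) : sz w ≤ 1 + n * (1 + 3) :=
  sz_list_le w n 3 h fun b _ => sz_bool_le b

theorem lexf : S_LEXF := by
  classical
  intro K α _ _ R N hR hN
  have hnp : NPp (fun s : (α × ℕ) × List Bool =>
      ∃ w : List Bool, w.length = s.1.2 - 1 ∧ R s.1.1 (s.2 ++ false :: w)) := by
    have h1 : NPp (fun p : ((α × ℕ) × List Bool) × List Bool =>
        p.2.length = p.1.1.2 - 1 ∧ R p.1.1.1 (p.1.2 ++ false :: p.2)) := by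
      refine NPp.and (NPp.of_ptime (PTime.natEq (PTime.length (PTime.snd PTime.id))
        (PTime.pred (PTime.snd (PTime.fst (PTime.fst PTime.id)))))) ?_
      exact hR.comp (g := fun p : ((α × ℕ) × List Bool) × List Bool =>
        (p.1.1.1, p.1.2 ++ false :: p.2))
        (PTime.pair (PTime.fst (PTime.fst (PTime.fst PTime.id)))
          (PTime.append (PTime.snd (PTime.fst PTime.id))
            (PTime.cons (PTime.const false) (PTime.snd PTime.id))))
    refine (NPp.exists_le (R := fun (s : (α × ℕ) × List Bool) (w : List Bool) =>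
      w.length = s.1.2 - 1 ∧ R s.1.1 (s.2 ++ false :: w)) h1
      (q := fun s => 1 + s.1.2 * (1 + 3)) ?_).congr fun s => ⟨?_, ?_⟩
    · exact PTime.add (PTime.const 1) (PTime.mul (PTime.snd (PTime.fst PTime.id)) (PTime.const _))
    · rintro ⟨w, hw, hw'⟩
      exact ⟨w, lexf_sz w _ (by omega), hw, hw'⟩
    · rintro ⟨w, -, hw, hw'⟩
      exact ⟨w, hw, hw'⟩
  have hstep : FPNP (lexfStep R) := by
    have h1 : PTime (fun s : (α × ℕ) × List Bool => (((s.1.1, s.1.2 - 1), s.2 ++ [false]) :
        (α × ℕ) × List Bool)) :=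
      PTime.pair (PTime.pair (PTime.fst (PTime.fst PTime.id))
        (PTime.pred (PTime.snd (PTime.fst PTime.id))))
        (PTime.append (PTime.snd PTime.id) (PTime.const [false]))
    have h2 : PTime (fun s : (α × ℕ) × List Bool => (((s.1.1, s.1.2 - 1), s.2 ++ [true]) :
        (α × ℕ) × List Bool)) :=
      PTime.pair (PTime.pair (PTime.fst (PTime.fst PTime.id))
        (PTime.pred (PTime.snd (PTime.fst PTime.id))))
        (PTime.append (PTime.snd PTime.id) (PTime.const [true]))
    refine (K.ite (K.npp hnp) (FPNP.of_ptime h1) (FPNP.of_ptime h2)).congr fun s => ?_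
    unfold lexfStep
    congr
  have hs : PTime (fun x : α => ((x, N x), ([] : List Bool))) :=
    PTime.pair (PTime.pair PTime.id hN) (PTime.const [])
  have hb : PB (fun x : α => 1 + (1 + sz x + sz (N x)) + (1 + sz (N x) * (1 + 3))) :=
    ((PB.const 1).add (((PB.const 1).add PB.sz_self).add hN.pb)).add
      ((PB.const 1).add (hN.pb.mul (PB.const (1 + 3))))
  have h1 := K.iter (n := N) hstep (FPNP.of_ptime hs) hN hb (fun x i hi => by
    obtain ⟨h2, h3⟩ := lexf_len R x (N x) [] i
    have h4 : sz ((lexfStep R)^[i] ((x, N x), [])).1 ≤ 1 + sz x + sz (N x) := by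
      rw [h2, sz_pair]
      simp only [sz_nat]
      omega
    have h5 : sz ((lexfStep R)^[i] ((x, N x), [])).2 ≤ 1 + sz (N x) * (1 + 3) := by
      refine lexf_sz _ _ ?_
      rw [h3]
      simp only [List.length_nil, sz_nat]
      omega
    rw [sz_pair]
    omega)
  refine (K.snd h1).congr fun x => ?_
  rw [lexf_iter]
  rfl

end Pool.TQ
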